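import Pool.Agent.D0H36.BL.Stm

/-! Project BL51: products of chromatic polynomials and minimal graphs. -/

set_option autoImplicit false

namespace Pool.Agent.D0H70.BL

open Polynomial Pool.Agent.H207R2.BL Pool.Agent.Y865.RF Pool.Agent.D0H36.BL

open Classical in
/-- colourings when there is no edge between `W` and the complement -/
noncomputable def eqv0 {V : Type} (G : SimpleGraph V) (W : Set V) (k : ℕ)
    (h : ∀ a b, a ∈ W → b ∉ W → ¬ G.Adj a b) :
    {g : V → Fin k // Proper G g} ≃
      {g : W → Fin k // Proper (G.induce W) g} × {g : (Wᶜ : Set V) → Fin k // Proper (G.induce Wᶜ) g} where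
  toFun g := (⟨fun a => g.1 a.1, fun a b hab => g.2 a.1 b.1 hab⟩,
    ⟨fun a => g.1 a.1, fun a b hab => g.2 a.1 b.1 hab⟩)
  invFun g := ⟨fun v => if hv : v ∈ W then g.1.1 ⟨v, hv⟩ else g.2.1 ⟨v, hv⟩, by
    intro a b hab
    by_cases ha : a ∈ W
    · by_cases hb : b ∈ W
      · simp only [dif_pos ha, dif_pos hb]
        exact g.1.2 _ _ hab
      · exact absurd hab (h a b ha hb)
    · by_cases hb : b ∈ W
      · exact absurd hab.symm (h b a hb ha)
      · simp only [dif_neg ha, dif_neg hb]
        exact g.2.2 _ _ hab⟩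
  left_inv g := by
    apply Subtype.ext
    funext v
    by_cases hv : v ∈ W
    · simp [hv]
    · simp [hv]
  right_inv g := by
    apply Prod.ext
    · apply Subtype.ext
      funext v
      simp [v.2]
    · apply Subtype.ext
      funext v
      have : v.1 ∉ W := v.2
      simp [this]

open Classical in
/-- colourings when there is exactly one edge between `W` and the complement -/
noncomputable def eqv1 {V : Type} (G : SimpleGraph V) (W : Set V) (k : ℕ) [NeZero k] (r x : V)
    (hr : r ∈ W) (hx : x ∉ W) (h : ∀ a b, a ∈ W → b ∉ W → (G.Adj a b ↔ a = r ∧ b = x)) :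
    {g : V → Fin k // Proper G g} × Fin k ≃
      ({g : W → Fin k // Proper (G.induce W) g} ×
        {g : (Wᶜ : Set V) → Fin k // Proper (G.induce Wᶜ) g}) × {s : Fin k // s ≠ 0} where
  toFun p := ((⟨fun a => p.1.1 a.1 + p.2, fun a b hab hh => p.1.2 a.1 b.1 hab (add_right_cancel hh)⟩,
    ⟨fun a => p.1.1 a.1, fun a b hab => p.1.2 a.1 b.1 hab⟩),
    ⟨p.1.1 r - p.1.1 x, sub_ne_zero.2 (p.1.2 r x ((h r x hr hx).2 ⟨rfl, rfl⟩))⟩)
  invFun p := (⟨fun v => if hv : v ∈ W then p.1.1.1 ⟨v, hv⟩ -
      (p.1.1.1 ⟨r, hr⟩ - p.1.2.1 ⟨x, hx⟩ - p.2.1) else p.1.2.1 ⟨v, hv⟩, by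
    intro a b hab
    by_cases ha : a ∈ W
    · by_cases hb : b ∈ W
      · simp only [dif_pos ha, dif_pos hb]
        intro hh
        exact p.1.1.2 ⟨a, ha⟩ ⟨b, hb⟩ hab (sub_left_injective hh)
      · obtain ⟨rfl, rfl⟩ := (h a b ha hb).1 hab
        simp only [dif_pos ha, dif_neg hb]
        intro hh
        apply p.2.2
        have h2 : p.1.1.1 ⟨a, ha⟩ - (p.1.1.1 ⟨a, hr⟩ - p.1.2.1 ⟨b, hx⟩ - p.2.1) =
          p.1.2.1 ⟨b, hx⟩ + p.2.1 := by abel
        rw [h2] at hh
        exact add_eq_left.1 hh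
    · by_cases hb : b ∈ W
      · obtain ⟨rfl, rfl⟩ := (h b a hb ha).1 hab.symm
        simp only [dif_pos hb, dif_neg ha]
        intro hh
        apply p.2.2
        have h2 : p.1.1.1 ⟨b, hb⟩ - (p.1.1.1 ⟨b, hr⟩ - p.1.2.1 ⟨a, hx⟩ - p.2.1) =
          p.1.2.1 ⟨a, hx⟩ + p.2.1 := by abel
        rw [h2] at hh
        exact add_eq_left.1 hh.symm
      · simp only [dif_neg ha, dif_neg hb]
        exact p.1.2.2 ⟨a, ha⟩ ⟨b, hb⟩ hab⟩, p.1.1.1 ⟨r, hr⟩ - p.1.2.1 ⟨x, hx⟩ - p.2.1)
  left_inv p := by
    have ht : p.1.1 r + p.2 - p.1.1 x - (p.1.1 r - p.1.1 x) = p.2 := by abel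
    apply Prod.ext
    · apply Subtype.ext
      funext v
      by_cases hv : v ∈ W
      · simp only [dif_pos hv, ht, add_sub_cancel_right]
      · simp only [dif_neg hv]
    · exact ht
  right_inv p := by
    apply Prod.ext
    · apply Prod.ext
      · apply Subtype.ext
        funext v
        simp only [v.2, dif_pos, Subtype.coe_eta, sub_add_cancel]
      · apply Subtype.ext
        funext v
        have : v.1 ∉ W := v.2
        simp only [dif_neg this]
    · apply Subtype.ext
      simp only [dif_pos hr, dif_neg hx]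
      abel

theorem prod : S_PROD := by
  classical
  intro V _ G W
  refine ⟨fun h => ?_, fun r x hr hx h => ?_⟩
  · refine (eq_chr (p := chr (G.induce W) * chr (G.induce Wᶜ)) ?_).symm
    intro k
    rw [Polynomial.eval_mul, chr_spec _ k, chr_spec _ k, card_colorings, card_colorings,
      card_colorings, Nat.card_congr (eqv0 G W k h), Nat.card_prod]
    push_cast
    rfl
  · apply Polynomial.eq_of_infinite_eval_eq
    apply Set.infinite_of_injective_forall_mem (f := fun k : ℕ => ((k + 1 : ℕ) : ℝ))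
      (fun a b hab => by
        have : ((a + 1 : ℕ) : ℝ) = ((b + 1 : ℕ) : ℝ) := hab
        have := Nat.cast_injective this
        omega)
    intro k
    show (X * chr G).eval (((k + 1 : ℕ) : ℝ)) =
      ((X - 1) * (chr (G.induce W) * chr (G.induce Wᶜ))).eval (((k + 1 : ℕ) : ℝ))
    rw [Polynomial.eval_mul, Polynomial.eval_mul, Polynomial.eval_mul, Polynomial.eval_X,
      Polynomial.eval_sub, Polynomial.eval_X, Polynomial.eval_one, chr_spec _ (k + 1),
      chr_spec _ (k + 1), chr_spec _ (k + 1), card_colorings, card_colorings, card_colorings]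
    have h1 := Nat.card_congr (eqv1 G W (k + 1) r x hr hx h)
    rw [Nat.card_prod, Nat.card_prod, Nat.card_prod, Nat.card_fin] at h1
    have h2 : Nat.card {s : Fin (k + 1) // s ≠ 0} = k := by
      rw [Nat.card_eq_fintype_card, Fintype.card_subtype_compl, Fintype.card_fin,
        Fintype.card_subtype_eq]
      omega
    rw [h2] at h1
    have h3 : ((k + 1 : ℕ) : ℝ) - 1 = k := by push_cast; ring
    rw [h3]
    have h4 : ((Nat.card {g : V → Fin (k + 1) // Proper G g} * (k + 1) : ℕ) : ℝ) =
      ((Nat.card {g : W → Fin (k + 1) // Proper (G.induce W) g} *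
        Nat.card {g : (Wᶜ : Set V) → Fin (k + 1) // Proper (G.induce Wᶜ) g} * k : ℕ) : ℝ) := by
      exact_mod_cast h1
    push_cast at h4 ⊢
    linarith

/-- transport to another set of vertices -/
lemma chr_comap {V W : Type} [Finite V] [Finite W] (e : W ≃ V) (G : SimpleGraph V) :
    chr (G.comap e) = chr G := by
  refine (chr_iso ?_).symm
  intro p hp k
  rw [hp k, card_colorings, card_colorings]
  congr 1
  apply Nat.card_congr
  refine
    { toFun := fun g => ⟨fun w => g.1 (e w), fun a b hab => g.2 _ _ hab⟩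
      invFun := fun g => ⟨fun v => g.1 (e.symm v), fun a b hab => g.2 _ _ (by
        show G.Adj (e (e.symm a)) (e (e.symm b))
        rwa [e.apply_symm_apply, e.apply_symm_apply])⟩
      left_inv := fun g => by
        apply Subtype.ext
        funext v
        simp
      right_inv := fun g => by
        apply Subtype.ext
        funext v
        simp }

lemma card_compl {n : ℕ} (X : Set (Fin n)) (hX : Xᶜ.Nonempty) : Nat.card X < n := by
  classical
  obtain ⟨x, hx⟩ := hX
  rw [Nat.card_eq_fintype_card]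
  have : Fintype.card X < Fintype.card (Fin n) := Fintype.card_subtype_lt (x := x) hx
  simpa using this

/-- minimal graphs with a property of the value of the chromatic polynomial at `q` -/
lemma min_gen (hP : S_PROD) (𝒞 : ∀ V : Type, SimpleGraph V → Prop) (d : ℕ) (hC : Cls 𝒞 d)
    (q : ℝ) (hq : 1 < q) (Z : ℝ → Prop) (hmul : ∀ a b, Z (a * b) → Z a ∨ Z b)
    (hpos : ∀ c, 0 < c → ¬ Z c) (hpos' : ∀ c a, 0 < c → Z a → Z (c * a)) (n : ℕ) :
    ∀ (V : Type) [Finite V] (G : SimpleGraph V), Nat.card V = n → 𝒞 V G → Z ((chr G).eval q) →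
      ∃ (h : ℕ) (B : SimpleGraph (Fin h)), 2 ≤ h ∧ 𝒞 (Fin h) B ∧ TwoEdge B ∧
        Z ((chr B).eval q) := by
  classical
  induction n using Nat.strong_induction_on with
  | _ n ih =>
    intro V _ G hn hG hZ
    obtain ⟨e⟩ : Nonempty (Fin n ≃ V) := ⟨(Finite.equivFinOfCardEq hn).symm⟩
    set B : SimpleGraph (Fin n) := G.comap e with hB
    have hBC : 𝒞 (Fin n) B := hC.emb _ _ e e.injective G hG
    have hBZ : Z ((chr B).eval q) := by rw [hB, chr_comap]; exact hZ
    have hsub : ∀ X : Set (Fin n), Xᶜ.Nonempty → Z ((chr (B.induce X)).eval q) →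
        ∃ (h : ℕ) (B : SimpleGraph (Fin h)), 2 ≤ h ∧ 𝒞 (Fin h) B ∧ TwoEdge B ∧
          Z ((chr B).eval q) := by
      intro X hX hZX
      exact ih _ (card_compl X hX) X (B.induce X) rfl
        (hC.emb _ _ Subtype.val Subtype.val_injective B hBC) hZX
    have hsplit : ∀ X : Set (Fin n), X.Nonempty → Xᶜ.Nonempty →
        Z ((chr (B.induce X)).eval q * (chr (B.induce Xᶜ)).eval q) →
        ∃ (h : ℕ) (B : SimpleGraph (Fin h)), 2 ≤ h ∧ 𝒞 (Fin h) B ∧ TwoEdge B ∧
          Z ((chr B).eval q) := by
      intro X hX hX' hh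
      rcases hmul _ _ hh with h | h
      · exact hsub X hX' h
      · exact hsub Xᶜ (by rwa [compl_compl]) h
    by_cases hT : TwoEdge B
    · refine ⟨n, B, ?_, hBC, hT, hBZ⟩
      by_contra hlt
      have hn1 : n = 0 ∨ n = 1 := by omega
      rcases hn1 with h0 | h1
      · subst h0
        have : chr B = 1 := Pool.Agent.Y865.RF.chr_empty B
        rw [this] at hBZ
        exact hpos 1 one_pos (by simpa using hBZ)
      · subst h1
        have h2 : chr B = X * chr (B.comap (Subtype.val : {x : Fin 1 // x ≠ 0} → Fin 1)) :=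
          chr_isolated B 0 (fun x hx => hx.ne (Subsingleton.elim _ _))
        have he : IsEmpty {x : Fin 1 // x ≠ 0} := ⟨fun x => x.2 (Subsingleton.elim _ _)⟩
        rw [h2, Pool.Agent.Y865.RF.chr_empty, mul_one, eval_X] at hBZ
        exact hpos q (by linarith) hBZ
    · unfold TwoEdge at hT
      push Not at hT
      obtain ⟨X, hX, hX', hT⟩ := hT
      by_cases hedge : ∃ a b, a ∈ X ∧ b ∉ X ∧ B.Adj a b
      · obtain ⟨r, x, hr, hx, hrx⟩ := hedge
        have h1 : ∀ a b, a ∈ X → b ∉ X → (B.Adj a b ↔ a = r ∧ b = x) := by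
          intro a b ha hb
          constructor
          · intro hab
            have := hT r x a b hr hx ha hb hrx hab
            exact ⟨(congrArg Prod.fst this).symm, (congrArg Prod.snd this).symm⟩
          · rintro ⟨rfl, rfl⟩
            exact hrx
        have h2 := (hP (Fin n) B X).2 r x hr hx h1
        have h3 := congrArg (Polynomial.eval q) h2
        rw [eval_mul, eval_mul, eval_mul, eval_X, eval_sub, eval_X, eval_one] at h3
        have h4 : Z ((q - 1) * ((chr (B.induce X)).eval q * (chr (B.induce Xᶜ)).eval q)) := by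
          rw [← h3]
          exact hpos' q _ (by linarith) hBZ
        rcases hmul _ _ h4 with h5 | h5
        · exact absurd h5 (hpos _ (by linarith))
        · exact hsplit X hX hX' h5
      · push Not at hedge
        have h2 := (hP (Fin n) B X).1 hedge
        rw [h2, eval_mul] at hBZ
        exact hsplit X hX hX' hBZ

theorem mn (hP : S_PROD) : S_MIN := by
  intro 𝒞 d hC q hq
  refine ⟨?_, ?_⟩
  · rintro ⟨V, hV, G, hG, hZ⟩
    exact min_gen hP 𝒞 d hC q hq (fun z => z < 0) (fun a b hab => by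
        by_contra hcon
        push Not at hcon
        exact absurd hab (not_lt.2 (mul_nonneg hcon.1 hcon.2)))
      (fun c hc => not_lt.2 hc.le) (fun c a hc ha => mul_neg_of_pos_of_neg hc ha) _ V G rfl hG hZ
  · rintro ⟨V, hV, G, hG, hZ⟩
    exact min_gen hP 𝒞 d hC q hq (fun z => z = 0) (fun a b hab => mul_eq_zero.1 hab)
      (fun c hc => hc.ne') (fun c a hc ha => by rw [ha, mul_zero]) _ V G rfl hG hZ

end Pool.Agent.D0H70.BL
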