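import Pool.Agent.D0H36.BL.Stm

/-! Project BL51: the growth of the number of the labelled members of the class. -/

set_option autoImplicit false

namespace Pool.Agent.D0H70.BL

open Finset Pool.Agent.H207R2.BL Pool.Agent.Y865.RF Pool.Agent.D0H36.BL

open Classical in
/-- the neighbours -/
noncomputable def nb {m : ℕ} (G : SimpleGraph (Fin m)) (x : Fin m) : Finset (Fin m) :=
  univ.filter (fun y => G.Adj x y)

lemma mem_nb {m : ℕ} {G : SimpleGraph (Fin m)} {x y : Fin m} : y ∈ nb G x ↔ G.Adj x y := by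
  classical
  simp [nb]

lemma card_nb {m : ℕ} (G : SimpleGraph (Fin m)) (x : Fin m) :
    (nb G x).card = (G.neighborSet x).ncard := by
  rw [← Set.ncard_coe_finset]
  congr 1
  ext y
  rw [Finset.mem_coe, mem_nb]
  rfl

lemma exists_sa {n : ℕ} {v x : Fin (n + 1)} (h : x ≠ v) : ∃ y, v.succAbove y = x :=
  Fin.exists_succAbove_eq h

/-- the contraction is determined by its restriction -/
lemma ctr_eq {n : ℕ} {G H : SimpleGraph (Fin (n + 1))} {u v : Fin (n + 1)}
    (h : (ctr G u v).comap v.succAbove = (ctr H u v).comap v.succAbove) :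
    ctr G u v = ctr H u v := by
  ext x y
  by_cases hx : x = v
  · rw [ctr_adj, ctr_adj]
    exact ⟨fun h => absurd hx h.1, fun h => absurd hx h.1⟩
  · by_cases hy : y = v
    · rw [ctr_adj, ctr_adj]
      exact ⟨fun h => absurd hy h.2.1, fun h => absurd hy h.2.1⟩
    · obtain ⟨x', rfl⟩ := exists_sa hx
      obtain ⟨y', rfl⟩ := exists_sa hy
      have h1 : ((ctr G u v).comap v.succAbove).Adj x' y' ↔
          ((ctr H u v).comap v.succAbove).Adj x' y' := by rw [h]
      exact h1

/-- the neighbours are near to those of another preimage of the contraction -/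
lemma nb_sub {m : ℕ} {G H : SimpleGraph (Fin m)} {u v : Fin m} (huv : u ≠ v)
    (h : ctr G u v = ctr H u v) (x : Fin m) (hx : G.Adj u x ∨ G.Adj v x) :
    x = u ∨ x = v ∨ H.Adj u x ∨ H.Adj v x := by
  by_cases hxu : x = u
  · exact Or.inl hxu
  by_cases hxv : x = v
  · exact Or.inr (Or.inl hxv)
  have h1 : (ctr G u v).Adj u x := by
    rw [ctr_adj]
    refine ⟨huv, hxv, Ne.symm hxu, ?_⟩
    rcases hx with hx | hx
    · exact Or.inl hx
    · exact Or.inr (Or.inl ⟨rfl, hx⟩)
  rw [h, ctr_adj] at h1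
  rcases h1.2.2.2 with h2 | h2 | h2
  · exact Or.inr (Or.inr (Or.inl h2))
  · exact Or.inr (Or.inr (Or.inr h2.2))
  · exact absurd h2.1 hxu

/-- a graph is determined by the contraction and the neighbours of the two vertices -/
lemma eq_of {m : ℕ} {G H : SimpleGraph (Fin m)} {u v : Fin m}
    (h : ctr G u v = ctr H u v) (hu : nb G u = nb H u) (hv : nb G v = nb H v) : G = H := by
  have au : ∀ x, G.Adj u x ↔ H.Adj u x := fun x => by rw [← mem_nb, hu, mem_nb]
  have av : ∀ x, G.Adj v x ↔ H.Adj v x := fun x => by rw [← mem_nb, hv, mem_nb]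
  ext x y
  by_cases hxu : x = u
  · rw [hxu]; exact au y
  by_cases hxv : x = v
  · rw [hxv]; exact av y
  by_cases hyu : y = u
  · rw [hyu, G.adj_comm, H.adj_comm]; exact au x
  by_cases hyv : y = v
  · rw [hyv, G.adj_comm, H.adj_comm]; exact av x
  have key : ∀ K : SimpleGraph (Fin m), K.Adj x y ↔ (x ≠ y ∧ (ctr K u v).Adj x y) := by
    intro K
    rw [ctr_adj]
    constructor
    · intro hK
      exact ⟨hK.ne, hxv, hyv, hK.ne, Or.inl hK⟩
    · rintro ⟨-, -, -, -, hK | hK | hK⟩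
      · exact hK
      · exact absurd hK.1 hxu
      · exact absurd hK.1 hyu
  rw [key G, key H, h]

/-- a graph is determined by a pair of twins and the rest -/
lemma eq_of_tw {n : ℕ} {G H : SimpleGraph (Fin (n + 1))} {u v : Fin (n + 1)} (huv : u ≠ v)
    (hG : G.neighborSet u = G.neighborSet v) (hH : H.neighborSet u = H.neighborSet v)
    (h : G.comap v.succAbove = H.comap v.succAbove) : G = H := by
  have h0 : ∀ x y, x ≠ v → y ≠ v → (G.Adj x y ↔ H.Adj x y) := by
    intro x y hx hy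
    obtain ⟨x', rfl⟩ := exists_sa hx
    obtain ⟨y', rfl⟩ := exists_sa hy
    have h1 : (G.comap v.succAbove).Adj x' y' ↔ (H.comap v.succAbove).Adj x' y' := by rw [h]
    exact h1
  have h1 : ∀ K : SimpleGraph (Fin (n + 1)), K.neighborSet u = K.neighborSet v →
      ∀ y, K.Adj v y ↔ K.Adj u y := by
    intro K hK y
    have : y ∈ K.neighborSet u ↔ y ∈ K.neighborSet v := by rw [hK]
    exact this.symm
  have h2 : ∀ y, G.Adj v y ↔ H.Adj v y := by
    intro y
    by_cases hy : y = v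
    · rw [hy]
      exact ⟨fun h => absurd rfl h.ne, fun h => absurd rfl h.ne⟩
    · rw [h1 G hG, h1 H hH]
      exact h0 u y huv hy
  ext x y
  by_cases hx : x = v
  · rw [hx]; exact h2 y
  by_cases hy : y = v
  · rw [hy, G.adj_comm, H.adj_comm]; exact h2 x
  exact h0 x y hx hy

theorem ra (hS : S_STRUCT) : S_RATIO := by
  classical
  intro 𝒞 d hC
  obtain ⟨D, hD⟩ := hS 𝒞 d hC
  refine ⟨2 * ((2 ^ (2 * D + 2)) ^ 2 + 1), ?_⟩
  intro n hn
  let _ : ∀ m : ℕ, Fintype (SimpleGraph (Fin m)) := fun m => Fintype.ofFinite _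
  set GG : ∀ m : ℕ, Finset (SimpleGraph (Fin m)) := fun m => univ.filter (fun G => 𝒞 (Fin m) G)
    with hGG
  have hnum : ∀ m, num 𝒞 m = (GG m).card := by
    intro m
    unfold num cnt
    rw [Nat.card_eq_fintype_card, Fintype.card_subtype, hGG]
    simp
  have hmG : ∀ m (G : SimpleGraph (Fin m)), G ∈ GG m ↔ 𝒞 (Fin m) G := by
    intro m G
    simp [hGG]
  set Pn : Finset (Fin (n + 1) × Fin (n + 1)) := (univ : Finset (Fin (n + 1))).offDiag with hPn
  have hPc : Pn.card = (n + 1) * n := by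
    rw [hPn, Finset.offDiag_card, Finset.card_univ, Fintype.card_fin]
    have : (n + 1) * (n + 1) = (n + 1) * n + (n + 1) := by ring
    omega
  set A : Finset (SimpleGraph (Fin (n + 1)) × (Fin (n + 1) × Fin (n + 1))) :=
    univ.filter (fun p => 𝒞 _ p.1 ∧ p.2 ∈ LL D p.1) with hA
  set B : Finset (SimpleGraph (Fin (n + 1)) × (Fin (n + 1) × Fin (n + 1))) :=
    univ.filter (fun p => 𝒞 _ p.1 ∧ p.2 ∈ TW p.1) with hB
  have hmA : ∀ p, p ∈ A ↔ (𝒞 _ p.1 ∧ p.2 ∈ LL D p.1) := by intro p; simp [hA]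
  have hmB : ∀ p, p ∈ B ↔ (𝒞 _ p.1 ∧ p.2 ∈ TW p.1) := by intro p; simp [hB]
  -- generic counting of the pairs
  have hgen : ∀ (E : Finset (SimpleGraph (Fin (n + 1)) × (Fin (n + 1) × Fin (n + 1))))
      (Q : SimpleGraph (Fin (n + 1)) → Set (Fin (n + 1) × Fin (n + 1))),
      (∀ p, p ∈ E ↔ (𝒞 _ p.1 ∧ p.2 ∈ Q p.1)) →
      ∑ G ∈ GG (n + 1), (Q G).ncard = E.card := by
    intro E Q hE
    rw [Finset.card_eq_sum_card_fiberwise (f := fun p => p.1) (t := GG (n + 1))
      (fun p hp => by rw [Finset.mem_coe, hmG]; exact ((hE p).1 hp).1)]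
    refine Finset.sum_congr rfl fun G hG => ?_
    rw [Set.ncard_eq_toFinset_card']
    refine Finset.card_bij (fun x _ => (G, x)) ?_ ?_ ?_
    · intro x hx
      rw [Set.mem_toFinset] at hx
      rw [Finset.mem_filter, hE]
      exact ⟨⟨(hmG _ _).1 hG, hx⟩, rfl⟩
    · intro x _ y _ hxy
      exact congrArg Prod.snd hxy
    · intro p hp
      rw [Finset.mem_filter, hE] at hp
      obtain ⟨⟨h1, h2⟩, h3⟩ := hp
      refine ⟨p.2, ?_, ?_⟩
      · rw [Set.mem_toFinset, ← h3]
        exact h2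
      · rw [← h3]
  have hAs := hgen A (LL D) hmA
  have hBs := hgen B TW hmB
  have htot : (n + 1) * num 𝒞 (n + 1) ≤ 2 * (A.card + B.card) := by
    rw [hnum, ← hAs, ← hBs, ← Finset.sum_add_distrib, Finset.mul_sum, mul_comm,
      ← smul_eq_mul, ← Finset.sum_const]
    refine Finset.sum_le_sum fun G hG => ?_
    have := hD (Fin (n + 1)) G ((hmG _ _).1 hG) (by rw [Nat.card_fin]; omega)
    rwa [Nat.card_fin] at this
  -- the second set
  have hBc : B.card ≤ (n + 1) * n * num 𝒞 n := by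
    rw [hnum, ← hPc, ← Finset.card_product]
    apply Finset.card_le_card_of_injOn (fun p => (p.2, p.1.comap p.2.2.succAbove))
    · intro p hp
      rw [Finset.mem_coe, hmB] at hp
      rw [Finset.mem_coe, Finset.mem_product, hPn, Finset.mem_offDiag, hmG]
      exact ⟨⟨Finset.mem_univ _, Finset.mem_univ _, hp.2.1⟩,
        hC.emb _ _ _ Fin.succAbove_right_injective p.1 hp.1⟩
    · intro p hp p' hp' hh
      rw [Finset.mem_coe, hmB] at hp hp'
      obtain ⟨G, u, v⟩ := p
      obtain ⟨G', u', v'⟩ := p'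
      simp only [Prod.mk.injEq] at hh
      obtain ⟨⟨rfl, rfl⟩, h2⟩ := hh
      exact Prod.ext (eq_of_tw hp.2.1 hp.2.2 hp'.2.2 h2) rfl
  -- the first set
  have hAc : A.card ≤ (2 ^ (2 * D + 2)) ^ 2 * ((n + 1) * n * num 𝒞 n) := by
    set f : SimpleGraph (Fin (n + 1)) × (Fin (n + 1) × Fin (n + 1)) →
        (Fin (n + 1) × Fin (n + 1)) × SimpleGraph (Fin n) :=
      fun p => (p.2, (ctr p.1 p.2.1 p.2.2).comap p.2.2.succAbove) with hf
    have himg : (A.image f).card ≤ (n + 1) * n * num 𝒞 n := by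
      rw [hnum, ← hPc, ← Finset.card_product]
      apply Finset.card_le_card
      intro b hb
      obtain ⟨p, hp, rfl⟩ := Finset.mem_image.1 hb
      rw [hmA] at hp
      rw [Finset.mem_product, hPn, Finset.mem_offDiag, hmG]
      exact ⟨⟨Finset.mem_univ _, Finset.mem_univ _, hp.2.1.ne⟩,
        hC.emb _ _ _ Fin.succAbove_right_injective _ (hC.ctr _ p.1 p.2.1 p.2.2 hp.2.1 hp.1)⟩
    refine (Finset.card_le_mul_card_image A ((2 ^ (2 * D + 2)) ^ 2) ?_).trans
      (Nat.mul_le_mul_left _ himg)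
    intro b hb
    obtain ⟨p₀, hp₀, hb0⟩ := Finset.mem_image.1 hb
    obtain ⟨G₀, u, v⟩ := p₀
    rw [hmA] at hp₀
    obtain ⟨hG₀, hadj, hdu, hdv⟩ := hp₀
    simp only at hG₀ hadj hdu hdv
    set S : Finset (Fin (n + 1)) := {u, v} ∪ nb G₀ u ∪ nb G₀ v with hS'
    have hSc : S.card ≤ 2 * D + 2 := by
      have h1 : ({u, v} : Finset (Fin (n + 1))).card ≤ 2 := Finset.card_le_two
      have h2 : (nb G₀ u).card ≤ D := by rw [card_nb]; exact hdu
      have h3 : (nb G₀ v).card ≤ D := by rw [card_nb]; exact hdv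
      have h4 := Finset.card_union_le ({u, v} ∪ nb G₀ u) (nb G₀ v)
      have h5 := Finset.card_union_le ({u, v} : Finset (Fin (n + 1))) (nb G₀ u)
      rw [hS']
      omega
    have hfib : ∀ p ∈ A.filter (fun p => f p = b), p.2 = (u, v) ∧
        ctr p.1 u v = ctr G₀ u v := by
      intro p hp
      rw [Finset.mem_filter] at hp
      obtain ⟨-, hpb⟩ := hp
      rw [← hb0] at hpb
      obtain ⟨G, u', v'⟩ := p
      simp only [hf, Prod.mk.injEq] at hpb
      obtain ⟨⟨rfl, rfl⟩, h2⟩ := hpb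
      exact ⟨rfl, ctr_eq h2⟩
    have h6 : (A.filter (fun p => f p = b)).card ≤ (S.powerset ×ˢ S.powerset).card := by
      apply Finset.card_le_card_of_injOn (fun p => (nb p.1 u, nb p.1 v))
      · intro p hp
        obtain ⟨-, hpc⟩ := hfib p hp
        rw [Finset.mem_coe, Finset.mem_product, Finset.mem_powerset, Finset.mem_powerset]
        constructor
        · intro x hx
          have := nb_sub hadj.ne hpc x (Or.inl (mem_nb.1 hx))
          simp only [hS', Finset.mem_union, Finset.mem_insert, Finset.mem_singleton, mem_nb]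
          tauto
        · intro x hx
          have := nb_sub hadj.ne hpc x (Or.inr (mem_nb.1 hx))
          simp only [hS', Finset.mem_union, Finset.mem_insert, Finset.mem_singleton, mem_nb]
          tauto
      · intro p hp p' hp' hh
        obtain ⟨h1, h2⟩ := hfib p hp
        obtain ⟨h1', h2'⟩ := hfib p' hp'
        simp only [Prod.mk.injEq] at hh
        exact Prod.ext (eq_of (h2.trans h2'.symm) hh.1 hh.2) (h1.trans h1'.symm)
    refine h6.trans ?_
    rw [Finset.card_product, Finset.card_powerset, sq]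
    exact Nat.mul_le_mul (Nat.pow_le_pow_right (by norm_num) hSc)
      (Nat.pow_le_pow_right (by norm_num) hSc)
  have hfin : (n + 1) * num 𝒞 (n + 1) ≤
      (n + 1) * (2 * ((2 ^ (2 * D + 2)) ^ 2 + 1) * n * num 𝒞 n) := by
    calc (n + 1) * num 𝒞 (n + 1) ≤ 2 * (A.card + B.card) := htot
      _ ≤ 2 * ((2 ^ (2 * D + 2)) ^ 2 * ((n + 1) * n * num 𝒞 n) + (n + 1) * n * num 𝒞 n) :=
          Nat.mul_le_mul_left _ (add_le_add hAc hBc)
      _ = (n + 1) * (2 * ((2 ^ (2 * D + 2)) ^ 2 + 1) * n * num 𝒞 n) := by ring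
  exact Nat.le_of_mul_le_mul_left hfin (by omega)

end Pool.Agent.D0H70.BL
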